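import Pool.Agent.H45.CF.Targets
import Pool.Agent.H3.HD.Iter
import Pool.Agent.H58.HD6.IN

/-!
# MP_e37c09_lc: the matrix of Ulam (module UM)
-/

open Ordinal Cardinal Order Set
open scoped ZFSet

universe u

namespace Pool.Agent.H11.CF

open _root_.HD _root_.HD.CF
open _root_.HD.NF (w0)

theorem pf_UM : T_UM.{u} := by
  intro γ hγ hon
  obtain ⟨q, e, m, Q⟩ := All.qe.{u}
  have hK : (succ γ).IsRegular := Cardinal.isRegular_succ hγ
  have hK0 : ℵ₀ < succ γ := lt_of_le_of_lt hγ (lt_succ γ)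
  generalize hKe : succ γ = K at *
  have hγK : γ < K := by rw [← hKe]; exact lt_succ γ
  have hγo : γ.ord < K.ord := Cardinal.ord_lt_ord.2 hγK
  have hlim : IsSuccLimit K.ord := Pool.Agent.H58.HD6.lim_of_cof (by rw [hK.cof_ord]; exact hK0)
  have hq : ∀ b, γ.ord < b → b < K.ord → q b ≤ γ.ord := by
    intro b h1 h2
    by_contra h3
    exact Q.card b γ.ord (not_le.1 h3) (hon (q b) (not_le.1 h3) (lt_of_le_of_lt (Q.em.ql b) h2))
  have hcard : γ.ord.card < K.ord.cof := by rw [hK.cof_ord, Cardinal.card_ord]; exact hγK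
  -- one of the sets in each row is positive
  have hrow : ∀ al < K.ord, ∃ xi < γ.ord, Pos w0 K.ord
      {b | γ.ord < b ∧ b < K.ord ∧ al < b ∧ m b al = xi} := by
    intro al hal
    by_contra hcon
    push Not at hcon
    refine All.va w0 K.ord (by rw [hK.cof_ord]; exact hK0) γ.ord hcard
      (fun xi => {b | γ.ord < b ∧ b < K.ord ∧ al < b ∧ m b al = xi}) hcon ?_
    intro C hC
    have hmax : max γ.ord al < K.ord := max_lt hγo hal
    have hC' : Clb K.ord {b | b ∈ C ∧ max γ.ord al < b} := by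
      refine ⟨fun a ha => ?_, fun x hx hx0 hxx => ⟨hC.cls x hx hx0 fun y hy => ?_, ?_⟩⟩
      · obtain ⟨b, hb, hab, hbC⟩ := hC.unb (max a (max γ.ord al)) (max_lt ha hmax)
        exact ⟨b, hb, lt_of_le_of_lt (le_max_left _ _) hab, hbC,
          lt_of_le_of_lt (le_max_right _ _) hab⟩
      · obtain ⟨z, hz, hyz, hzC⟩ := hxx y hy
        exact ⟨z, hz, hyz, hzC.1⟩
      · obtain ⟨z, hz, -, hzC⟩ := hxx 0 hx0
        exact hzC.2.trans hz
    obtain ⟨b, hb, ⟨hbC, hbm⟩, -, hcf⟩ := All.vc ℵ₀ K.ord Cardinal.isRegular_aleph0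
      (by rw [hK.cof_ord]; exact hK0) _ hC'
    have h1 : γ.ord < b := lt_of_le_of_lt (le_max_left _ _) hbm
    have h2 : al < b := lt_of_le_of_lt (le_max_right _ _) hbm
    exact ⟨b, hb, hbC, ⟨m b al, lt_of_lt_of_le (Q.em.ml b al h2) (hq b h1 hb),
      h1, hb, h2, rfl⟩, hcf⟩
  -- one of the columns contains unboundedly many positive sets
  have hcol : ∃ xi < γ.ord, ∀ l < K.ord, ∃ al, l ≤ al ∧ al < K.ord ∧ Pos w0 K.ord
      {b | γ.ord < b ∧ b < K.ord ∧ al < b ∧ m b al = xi} := by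
    by_contra hcon
    push Not at hcon
    choose! g hg1 hg2 using hcon
    obtain ⟨l, hl, hl2⟩ := Pool.Agent.H3.HD.exists_bound hcard g hg1
    obtain ⟨xi, hxi, hp⟩ := hrow l hl
    exact hg2 xi hxi l (hl2 xi hxi) hl hp
  obtain ⟨xi, hxi, hunb⟩ := hcol
  let r : Ordinal.{u} → Ordinal.{u} → Prop := fun b al => γ.ord < b ∧ b < K.ord ∧ al < b ∧
    m b al = xi
  have hr : DR r := by
    refine (DO.gtc 0 γ.ord).and ((DO.ltc 0 K.ord).and ((DO.lt 1 0).and ?_))
    refine (DO.sub (R := fun x w => x = m (w 0) (w 1)) xi ?_).congr fun w => eq_comm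
    exact DO.s3 (X := fun a b c => c = m a b) Q.dm 1 2 0
  let I : Set Ordinal.{u} := {al | al < K.ord ∧ Pos w0 K.ord {b | r b al}}
  have hI : DS I := by
    refine DO.and (DO.ltc 0 K.ord) ?_
    refine DO.sub (R := fun m w => Pos m K.ord {b | r b (w 0)}) w0 ?_
    refine DO.sub (R := fun k w => Pos (w 0) k {b | r b (w 1)}) K.ord ?_
    refine All.da 1 0 (fun b w => r b (w 2)) ?_
    exact DO.s2 (X := fun a b => r a b) hr 0 3
  have hN : DO.{u} fun w => nth I (w 0) (w 1) := All.db (fun a _ => a ∈ I) hI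
  have hex : ∀ i < K.ord, ∃ z, nth I i z := by
    rcases (All.vh I).2.2.2 K.ord with h | h
    · exfalso
      obtain ⟨t, ht, e', he'⟩ := h
      classical
      let f : Ordinal.{u} → Ordinal.{u} := fun a => if e' a < K.ord then e' a else 0
      have hK00 : (0 : Ordinal.{u}) < K.ord := lt_of_le_of_lt zero_le hγo
      obtain ⟨l, hl, hl2⟩ := Pool.Agent.H3.HD.exists_bound (ρ := K.ord) (τ := t)
        (by rw [hK.cof_ord]; exact Cardinal.lt_ord.1 ht) f (fun a _ => by
          by_cases h : e' a < K.ord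
          · simp only [f, if_pos h]; exact h
          · simp only [f, if_neg h]; exact hK00)
      obtain ⟨i, hi1, hi2, hi3⟩ := hunb (succ l) (hlim.succ_lt hl)
      obtain ⟨a, ha, hae⟩ := he' i ⟨hi2, hi3⟩
      have h1 := hl2 a ha
      simp only [f] at h1
      rw [hae, if_pos hi2] at h1
      exact absurd (lt_of_lt_of_le (lt_succ l) hi1) (not_lt.2 h1)
    · exact h
  refine ⟨fun b i => ∃ z, nth I i z ∧ r b z, hK, ?_, ?_, ?_⟩
  · refine DO.ex (R := fun z w => nth I (w 1) z ∧ r (w 0) z) (DO.and ?_ ?_)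
    · exact DO.s2 (X := fun a b => nth I a b) hN 2 0
    · exact DO.s2 (X := fun a b => r a b) hr 1 0
  · rintro b i i' ⟨z, hz, hrz⟩ ⟨z', hz', hrz'⟩
    have h1 : z = z' := by
      rw [← Q.em.em b z hrz.2.2.1, ← Q.em.em b z' hrz'.2.2.1, hrz.2.2.2, hrz'.2.2.2]
    subst h1
    rcases lt_trichotomy i i' with h | h | h
    · exact absurd (((All.vh I).2.1 i i' z z hz hz').1 h) (lt_irrefl z)
    · exact h
    · exact absurd (((All.vh I).2.1 i' i z z hz' hz).1 h) (lt_irrefl z)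
  · intro i hi C hC
    obtain ⟨z, hz⟩ := hex i hi
    obtain ⟨b, hb, hbC, hbr, hcf⟩ := hz.1.2 C hC
    exact ⟨b, hb, hbC, ⟨z, hz, hbr⟩, hcf⟩

end Pool.Agent.H11.CF
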